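import Mathlib
import Pool.Agent.Helper50.Hemi.Base

/-!
# Additive characters on `k` and on a quadratic extension `E`
-/

set_option autoImplicit false

open Classical

namespace Pool.Agent.Helper1.Hemi

section one

variable {k : Type} [Field k] [Fintype k]

theorem sum_k (ψ : AddChar k ℂ) (hψ : ψ ≠ 1) (b : k) :
    ∑ a : k, ψ (a * b) = if b = 0 then (Fintype.card k : ℂ) else 0 := by
  split_ifs with hb
  · subst hb
    simp
  · have h2 : ∑ b : k, ψ b = 0 := AddChar.sum_eq_zero_of_ne_one hψ
    rw [← h2]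
    exact Fintype.sum_bijective (fun a : k => a * b) (mulRight_bijective₀ b hb) _ _ (fun _ => rfl)

theorem sum_k_erase (ψ : AddChar k ℂ) (hψ : ψ ≠ 1) (b : k) :
    ∑ a ∈ Finset.univ.erase (0 : k), ψ (a * b) =
      (if b = 0 then (Fintype.card k : ℂ) else 0) - 1 := by
  have h := Finset.add_sum_erase Finset.univ (fun a : k => ψ (a * b)) (Finset.mem_univ (0 : k))
  rw [sum_k ψ hψ] at h
  simp only [zero_mul, AddChar.map_zero_eq_one] at h
  linear_combination h

/-- A nontrivial character value gives a nontrivial multiple. -/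
theorem exists_ne (ψ : AddChar k ℂ) (hψ : ψ ≠ 1) {b : k} (hb : b ≠ 0) : ∃ a : k, ψ (a * b) ≠ 1 := by
  by_contra h
  push Not at h
  apply hψ
  ext x
  have := h (x / b)
  rw [div_mul_cancel₀ _ hb] at this
  rw [this, AddChar.one_apply]

/-- Sum of a character over a finite subspace. -/
theorem sum_subspace {V : Type} [AddCommGroup V] [Module k V] (ψ : AddChar k ℂ) (hψ : ψ ≠ 1)
    (L : Finset V) (hadd : ∀ x ∈ L, ∀ y ∈ L, x + y ∈ L) (hsmul : ∀ a : k, ∀ x ∈ L, a • x ∈ L)
    (χ : V →ₗ[k] k) :
    ∑ x ∈ L, ψ (χ x) = if ∀ x ∈ L, χ x = 0 then (L.card : ℂ) else 0 := by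
  split_ifs with h
  · rw [Finset.sum_congr rfl (fun x hx => by rw [h x hx, AddChar.map_zero_eq_one])]
    simp
  · push Not at h
    obtain ⟨y, hy, hy0⟩ := h
    obtain ⟨a, ha⟩ := exists_ne ψ hψ hy0
    set z := a • y with hz
    have hzL : z ∈ L := hsmul a y hy
    have hnegL : ∀ x ∈ L, -x ∈ L := fun x hx => by
      have := hsmul (-1) x hx
      rwa [neg_one_smul] at this
    have hψz : ψ (χ z) ≠ 1 := by rwa [hz, map_smul, smul_eq_mul]
    have h1 : ∑ x ∈ L, ψ (χ x) = ∑ x ∈ L, ψ (χ (z + x)) := by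
      refine (Finset.sum_bij' (fun x _ => z + x) (fun x _ => -z + x) ?_ ?_ ?_ ?_ ?_).symm
      · intro x hx
        exact hadd z hzL x hx
      · intro x hx
        exact hadd (-z) (hnegL z hzL) x hx
      · intro x _
        rw [neg_add_cancel_left]
      · intro x _
        rw [add_neg_cancel_left]
      · intro x _
        rfl
    simp only [map_add, AddChar.map_add_eq_mul] at h1
    rw [← Finset.mul_sum] at h1
    have h2 : (ψ (χ z) - 1) * ∑ x ∈ L, ψ (χ x) = 0 := by linear_combination -h1
    rcases mul_eq_zero.1 h2 with h3 | h3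
    · exact absurd (by linear_combination h3) hψz
    · exact h3

end one

section two

variable {k E : Type} [Field k] [Fintype k] [Field E] [Fintype E] [Algebra k E]

theorem card_E (hr : Module.finrank k E = 2) :
    (Fintype.card E : ℂ) = (Fintype.card k : ℂ) ^ 2 := by
  rw [Module.card_eq_pow_finrank (K := k) (V := E), hr]
  push_cast
  rfl

theorem trace_surj (b : E) (hb : b ≠ 0) : ∃ x : E, Algebra.trace k E (x * b) ≠ 0 := by
  obtain ⟨y, hy⟩ := Algebra.trace_surjective k E (1 : k)
  refine ⟨y / b, ?_⟩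
  rw [div_mul_cancel₀ _ hb, hy]
  exact one_ne_zero

theorem sum_E (hr : Module.finrank k E = 2) (ψ : AddChar k ℂ) (hψ : ψ ≠ 1) (b : E) :
    ∑ x : E, ψ (Algebra.trace k E (x * b)) = if b = 0 then (Fintype.card k : ℂ) ^ 2 else 0 := by
  have h := sum_subspace (k := k) (V := E) ψ hψ Finset.univ (by simp) (by simp)
    ((Algebra.trace k E).comp ((LinearMap.mulRight k b)))
  simp only [LinearMap.comp_apply, LinearMap.mulRight_apply, Finset.mem_univ, forall_const,
    Finset.card_univ, card_E hr] at h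
  rw [h]
  congr 1
  apply propext
  constructor
  · intro h1
    by_contra hb
    obtain ⟨x, hx⟩ := trace_surj (k := k) b hb
    exact hx (h1 x)
  · rintro rfl x
    rw [mul_zero, map_zero]

end two

end Pool.Agent.Helper1.Hemi
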