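import Mathlib
import Pool.Agent.Helper93.Hemi.Base
import Pool.Agent.Helper50.Hemi.Base
import Pool.Agent.Helper1.Hemi.Chr

/-!
# Line sum theorem: algebra
-/

set_option autoImplicit false
set_option linter.unusedSectionVars false

open Classical

namespace Pool.Agent.Helper1.Hemi

open Pool.Agent.Helper93.Hemi

variable {k E : Type} [Field k] [Fintype k] [Field E] [Fintype E] [Algebra k E]

/-- The norm form composed with an isometry. -/
noncomputable def nk (κ : E) (z : k × E) : k :=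
  - z.1 ^ 3 + 3 * z.1 * nm k E z.2 + tr k E (κ * z.2 ^ 3)

/-- The trace pairing on `F_{q^3}`. -/
noncomputable def p3 (z η : k × E) : k := 3 * (z.1 * η.1 + tr k E (z.2 * cj k E η.2))

theorem p3_sub (z z' η : k × E) : p3 (z' - z) η = p3 z' η - p3 z η := by
  simp only [p3, Prod.fst_sub, Prod.snd_sub, sub_mul, map_sub]
  ring

theorem p3_neg_right (z η : k × E) : p3 z (-η) = - p3 z η := by
  simp only [p3, Prod.fst_neg, Prod.snd_neg, mul_neg, map_neg]
  ring

theorem nm_neg (hr : Module.finrank k E = 2) (x : E) : nm k E (-x) = nm k E x := by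
  apply algebraMap_inj (E := E)
  rw [nm_formula hr, nm_formula hr, map_neg]
  ring

theorem nk_neg (hr : Module.finrank k E = 2) (κ : E) (z : k × E) : nk κ (-z) = - nk κ z := by
  simp only [nk, Prod.fst_neg, Prod.snd_neg, nm_neg hr]
  have h2 : κ * (-z.2) ^ 3 = -(κ * z.2 ^ 3) := by ring
  rw [h2, map_neg]
  ring

theorem ip_add_right (X Y Z : E × E × E) : ip (k := k) X (Y + Z) = ip X Y + ip X Z := by
  simp only [ip, Prod.fst_add, Prod.snd_add, map_add, mul_add]
  ring

theorem ip_smul_right (a : k) (X Y : E × E × E) : ip (k := k) X (a • Y) = a * ip X Y := by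
  simp only [ip, Prod.smul_fst, Prod.smul_snd]
  simp only [Algebra.smul_def, map_mul, cj_algebraMap]
  simp only [mul_left_comm _ (algebraMap k E a), tr_algebraMap_mul]
  ring

theorem ip_comm (hr : Module.finrank k E = 2) (X Y : E × E × E) : ip (k := k) X Y = ip Y X := by
  simp only [ip]
  rw [← tr_cj hr (X.1 * _), ← tr_cj hr (X.2.1 * _), ← tr_cj hr (X.2.2 * _)]
  simp only [map_mul, cj_cj hr]
  rw [mul_comm (cj k E X.1), mul_comm (cj k E X.2.1), mul_comm (cj k E X.2.2)]

/-- `3 ip X ·` as a linear map. -/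
noncomputable def ipL (X : E × E × E) : (E × E × E) →ₗ[k] k where
  toFun Y := 3 * ip X Y
  map_add' Y Z := by rw [ip_add_right]; ring
  map_smul' a Y := by rw [ip_smul_right, RingHom.id_apply, smul_eq_mul]; ring

theorem ip_sub_right (X Y Z : E × E × E) : ip (k := k) X (Y - Z) = ip X Y - ip X Z := by
  simp only [ip, Prod.fst_sub, Prod.snd_sub, map_sub, mul_sub]
  ring

theorem nm_add (hr : Module.finrank k E = 2) (x y : E) :
    nm k E (x + y) = nm k E x + nm k E y + tr k E (x * cj k E y) := by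
  apply algebraMap_inj (E := E)
  simp only [map_add, nm_formula hr, tr_formula hr, map_mul, cj_cj hr]
  ring

theorem aa_add (hr : Module.finrank k E = 2) (X Y : E × E × E) :
    aa (k := k) (X + Y) = aa X + aa Y + ip X Y := by
  simp only [aa, ip, Prod.fst_add, Prod.snd_add, nm_add hr]
  ring

theorem aa_zero (hr : Module.finrank k E = 2) : aa (k := k) (0 : E × E × E) = 0 := by
  simp only [aa, Prod.fst_zero, Prod.snd_zero, (nm_eq_zero hr).2 rfl]
  ring

section ctx

variable (c : Ctx k E)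

/-- `n` in the other coordinates: `nk κ = n ∘ r` for an isometry `r`. -/
theorem exists_iso {z κ : E} (hz : z * cj k E z = 1)
    (hκ : κ = c.ρ * z ^ 3 ∨ κ = cj k E c.ρ * z ^ 3) :
    ∃ r : k × E → k × E, Function.Bijective r ∧ (∀ w, c.n (r w) = nk κ w) ∧
      (∀ w, r w = 0 ↔ w = 0) ∧ ∀ w η, p3 (r w) (r η) = p3 w η := by
  have hz0 : z ≠ 0 := by
    rintro rfl
    rw [zero_mul] at hz
    exact zero_ne_one hz
  have hzc0 : cj k E z ≠ 0 := fun h => hz0 (cj_eq_zero.1 h)
  have hr := c.finE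
  have hnz : nm k E z = 1 := by
    apply algebraMap_inj (E := E)
    rw [nm_formula hr, hz, map_one]
  have hnzc : nm k E (cj k E z) = 1 := by rw [nm_cj hr, hnz]
  rcases hκ with rfl | rfl
  · refine ⟨fun w => (-w.1, z * w.2), ?_, ?_, ?_, ?_⟩
    · have hinj : Function.Injective (fun w : k × E => (-w.1, z * w.2)) := by
        rintro ⟨a, U⟩ ⟨b, V⟩ h
        simp only [Prod.mk.injEq, neg_inj] at h
        rw [h.1, mul_left_cancel₀ hz0 h.2]
      exact Finite.injective_iff_bijective.1 hinj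
    · rintro ⟨a, U⟩
      simp only [Ctx.n, nk, map_mul, hnz, one_mul]
      have e : c.ρ * (z * U) ^ 3 = c.ρ * z ^ 3 * U ^ 3 := by ring
      rw [e]
      ring
    · rintro ⟨a, U⟩
      simp only [Prod.mk_eq_zero, neg_eq_zero, mul_eq_zero, hz0, false_or]
    · rintro ⟨a, U⟩ ⟨b, V⟩
      simp only [p3, map_mul]
      have e : z * U * (cj k E z * cj k E V) = U * cj k E V := by
        linear_combination (U * cj k E V) * hz
      rw [e]
      ring
  · refine ⟨fun w => (-w.1, cj k E (z * w.2)), ?_, ?_, ?_, ?_⟩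
    · have hinj : Function.Injective (fun w : k × E => (-w.1, cj k E (z * w.2))) := by
        rintro ⟨a, U⟩ ⟨b, V⟩ h
        simp only [Prod.mk.injEq, neg_inj] at h
        rw [h.1, mul_left_cancel₀ hz0 (cj_injective h.2)]
      exact Finite.injective_iff_bijective.1 hinj
    · rintro ⟨a, U⟩
      simp only [Ctx.n, nk, nm_cj hr]
      rw [map_mul (nm k E), hnz, one_mul]
      have e : tr k E (c.ρ * cj k E (z * U) ^ 3) = tr k E (cj k E c.ρ * z ^ 3 * U ^ 3) := by
        rw [← tr_cj hr]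
        congr 1
        simp only [map_mul, map_pow, cj_cj hr]
        ring
      rw [e]
      ring
    · rintro ⟨a, U⟩
      simp only [Prod.mk_eq_zero, neg_eq_zero, cj_eq_zero, mul_eq_zero, hz0, false_or]
    · rintro ⟨a, U⟩ ⟨b, V⟩
      simp only [p3, map_mul, cj_cj hr]
      have e : tr k E (cj k E z * cj k E U * (z * V)) = tr k E (U * cj k E V) := by
        rw [← tr_cj hr]
        congr 1
        simp only [map_mul, cj_cj hr]
        linear_combination (U * cj k E V) * hz
      rw [e]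
      ring

theorem nk_eq_zero {z κ : E} (hz : z * cj k E z = 1)
    (hκ : κ = c.ρ * z ^ 3 ∨ κ = cj k E c.ρ * z ^ 3) (w : k × E) : nk κ w = 0 ↔ w = 0 := by
  obtain ⟨r, -, h2, h3, -⟩ := exists_iso c hz hκ
  rw [← h2, c.n_eq_zero, h3]

/-- F1 for `nk κ`. -/
theorem F1k (hF1 : GoalF1) {ψ : AddChar k ℂ} (hψ : ψ ≠ 1) {z κ : E} (hz : z * cj k E z = 1)
    (hκ : κ = c.ρ * z ^ 3 ∨ κ = cj k E c.ρ * z ^ 3) (m : kˣ) (η : k × E) :
    ∑ w : k × E, ψ ((m : k) * nk κ w + p3 w η) =
      Fintype.card k * Kl ψ (- (((m⁻¹ : kˣ) : k) * nk κ η))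
      - (Fintype.card k : ℂ) ^ 2 * ind (η = 0) := by
  obtain ⟨r, h1, h2, h3, h4⟩ := exists_iso c hz hκ
  have h := hF1 k E c ψ hψ m (r η)
  have e1 : (r η = 0) = (η = 0) := propext (h3 η)
  rw [h2, e1] at h
  rw [← h]
  refine Fintype.sum_bijective r h1 _ _ ?_
  intro w
  rw [← h2, ← h4]
  rfl

/-- `X X̄ ≠ 0` if `X ≠ 0`. -/
theorem eq_zero_of_aa_YY {X : E × E × E} (ha : aa (k := k) X = 0) (hY : c.YY X = 0) : X = 0 := by
  have hr := c.finE
  obtain ⟨x0, x1, x2⟩ := X
  have ha' := congrArg (algebraMap k E) ha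
  simp only [aa, map_add, nm_formula hr, map_zero] at ha'
  simp only [Ctx.YY] at hY
  have hρ0 : cj k E c.ρ ≠ 0 := fun h => c.ρ_ne (cj_eq_zero.1 h)
  have hcc : ∀ x : E, cj k E x = 0 → x = 0 := fun x h => cj_eq_zero.1 h
  have hmm : ∀ x : E, x * cj k E x = 0 → x = 0 := fun x h => by
    rcases mul_eq_zero.1 h with h | h
    · exact h
    · exact hcc x h
  by_cases h0 : x0 = 0
  · subst h0
    simp only [zero_mul, map_zero, mul_zero, zero_add, add_zero] at ha' hY
    rcases mul_eq_zero.1 ((mul_eq_zero.1 hY).resolve_left hρ0) with h | h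
    · subst h
      rw [zero_mul, add_zero] at ha'
      rw [hmm x1 ha']
      rfl
    · have h1 := hcc _ h
      subst h1
      rw [zero_mul, zero_add] at ha'
      rw [hmm x2 ha']
      rfl
  by_cases h1 : x1 = 0
  · subst h1
    exfalso
    simp only [zero_mul, map_zero, mul_zero, add_zero] at ha' hY
    have h2 := hcc _ ((mul_eq_zero.1 hY).resolve_left h0)
    subst h2
    rw [zero_mul, add_zero] at ha'
    exact h0 (hmm x0 ha')
  exfalso
  -- all the rest
  have hx0c : cj k E x0 ≠ 0 := fun h => h0 (hcc _ h)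
  have hρ := c.hρ
  have hYc := congrArg (cj k E) hY
  simp only [map_add, map_mul, cj_cj hr, map_zero] at hYc
  set a := cj k E x0 with ha0
  set b := cj k E x1 with hb
  set d := cj k E x2 with hd
  set r := cj k E c.ρ with hr'
  -- `ha' : x0 a + x1 b + x2 d = 0`, `hY : x0 d + x1 a + r x2 b = 0`,
  -- `hYc : a x2 + b x0 + ρ d x1 = 0`
  have e2 : x2 * (x0 * a - x1 * b) = - b * x0 ^ 2 + c.ρ * a * x1 ^ 2 := by
    linear_combination x0 * hYc - c.ρ * x1 * hY + (x1 * x2 * b) * hρ
  have e3 : d * (x0 * a - x1 * b) = - a ^ 2 * x1 + r * b ^ 2 * x0 := by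
    linear_combination a * hY - r * b * hYc + (x1 * d * b) * hρ
  have key : (c.ρ * x1 ^ 3 - x0 ^ 3) * (r * b ^ 3 - a ^ 3) = 0 := by
    linear_combination (x0 * a - x1 * b) ^ 2 * ha' - (d * (x0 * a - x1 * b)) * e2
      - (- b * x0 ^ 2 + c.ρ * a * x1 ^ 2) * e3 + (x1 ^ 3 * b ^ 3 - a * b ^ 2 * x0 * x1 ^ 2) * hρ
  rcases mul_eq_zero.1 key with h3 | h3
  · apply c.hρ3 (x0 / x1)
    rw [div_pow, div_eq_iff (pow_ne_zero 3 h1)]
    linear_combination -h3
  · have hb0 : b ≠ 0 := fun h => h1 (hcc _ h)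
    apply c.hρ3 (b / a)
    rw [div_pow, div_eq_iff (pow_ne_zero 3 hx0c)]
    linear_combination (c.ρ) * h3 - b ^ 3 * hρ

end ctx

end Pool.Agent.Helper1.Hemi
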