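import Mathlib
import Pool.Agent.Helper1.Hemi.LS1

/-!
# Line sum theorem: Fourier transform
-/

set_option autoImplicit false
set_option linter.unusedSectionVars false

open Classical

namespace Pool.Agent.Helper1.Hemi

open Pool.Agent.Helper93.Hemi

variable {k E : Type} [Field k] [Fintype k] [Field E] [Fintype E] [Algebra k E]

/-- The number of `z` with `N_J(z,X) + nk κ z = 0`. -/
noncomputable def TT (c : Ctx k E) (κ : E) (X : E × E × E) : ℂ :=
  ∑ z : k × E, ind (c.NJ z X + nk κ z = 0)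

theorem q_ne : (Fintype.card k : ℂ) ≠ 0 := by
  exact_mod_cast (Fintype.card_pos (α := k)).ne'

theorem sum_k_ind {ψ : AddChar k ℂ} (hψ : ψ ≠ 1) (a : k) :
    (Fintype.card k : ℂ) * ind (a = 0) = 1 + ∑ m : kˣ, ψ ((m : k) * a) := by
  rw [sum_psi_units hψ, ind]
  split_ifs <;> ring

/-- Orthogonality on `k × E`. -/
theorem orth_p3 (c : Ctx k E) {ψ : AddChar k ℂ} (hψ : ψ ≠ 1) (z : k × E) :
    ∑ η : k × E, ψ (p3 z η) = (Fintype.card k : ℂ) ^ 3 * ind (z = 0) := by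
  have h1 : ∀ η : k × E, ψ (p3 z η) =
      ψ (η.1 * (3 * z.1)) * ψ (tr k E (cj k E η.2 * (3 * z.2))) := by
    intro η
    rw [← AddChar.map_add_eq_mul, p3]
    congr 1
    have : cj k E η.2 * (3 * z.2) = algebraMap k E 3 * (z.2 * cj k E η.2) := by
      rw [map_ofNat]; ring
    rw [this, tr_algebraMap_mul]
    ring
  simp only [h1]
  rw [Fintype.sum_prod_type]
  simp only [← Finset.mul_sum]
  have h2 : ∑ y : E, ψ (tr k E (cj k E y * (3 * z.2))) = ∑ y : E, ψ (tr k E (y * (3 * z.2))) := by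
    refine Fintype.sum_bijective (cj k E) ?_ _ _ (fun _ => rfl)
    exact Finite.injective_iff_bijective.1 cj_injective
  rw [h2, ← Finset.sum_mul, sum_psi hψ, sum_psi_tr c.finE hψ]
  have h3 := c.three_ne
  have h3E := c.three_ne_E
  obtain ⟨a, U⟩ := z
  simp only [mul_eq_zero, h3, h3E, false_or, Prod.mk_eq_zero, ind]
  by_cases ha : a = 0 <;> by_cases hU : U = 0 <;> simp [ha, hU]
  ring

theorem ind_one {p : Prop} (h : p) : ind p = 1 := by rw [ind, if_pos h]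
theorem ind_zero {p : Prop} (h : ¬ p) : ind p = 0 := by rw [ind, if_neg h]

/-- The Fourier transform of `ψ(m N_J)`. -/
theorem FJ (hF2 : GoalF2w) (hJ : GoalJ) (c : Ctx k E) {ψ : AddChar k ℂ} (hψ : ψ ≠ 1) :
    ∃ R : k × E → E × E × E → ℂ, ∀ (η : k × E) (Y : E × E × E) (m : kˣ),
      ∑ p : (k × E) × (E × E × E), ψ ((m : k) * c.NJ p.1 p.2 + p3 p.1 η + 3 * ip p.2 Y) =
        - (Fintype.card k : ℂ) ^ 4 * Kl ψ (- (((m⁻¹ : kˣ) : k) * c.NJ η Y)) + R η Y := by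
  obtain ⟨h1, h2, h3⟩ := hJ k E c
  have h := fun (η : k × E) (Y : E × E × E) => hF2 k E c.finE ψ hψ (c.toH η Y)
  choose R hR using h
  refine ⟨R, ?_⟩
  intro η Y m
  have hh := hR η Y m
  rw [h1] at hh
  rw [← hh]
  refine Fintype.sum_bijective (fun p : (k × E) × (E × E × E) => c.toH p.1 p.2) h3 _ _ ?_
  intro p
  rw [h1, h2, p3]
  congr 1
  ring

/-- Parseval in `z`. -/
theorem parseval (c : Ctx k E) {ψ : AddChar k ℂ} (hψ : ψ ≠ 1) (f g : k × E → ℂ) :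
    ∑ η : k × E, (∑ w : k × E, f w * ψ (p3 w η)) * (∑ z : k × E, g z * ψ (p3 z (-η))) =
      (Fintype.card k : ℂ) ^ 3 * ∑ z : k × E, f z * g z := by
  have h1 : ∀ η : k × E,
      (∑ w : k × E, f w * ψ (p3 w η)) * (∑ z : k × E, g z * ψ (p3 z (-η))) =
      ∑ w : k × E, ∑ z : k × E, f w * g z * ψ (p3 (w - z) η) := by
    intro η
    rw [Finset.sum_mul_sum]
    refine Finset.sum_congr rfl fun w _ => Finset.sum_congr rfl fun z _ => ?_
    have : p3 (w - z) η = p3 w η + p3 z (-η) := by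
      rw [p3_sub, p3_neg_right]; ring
    rw [this, AddChar.map_add_eq_mul]
    ring
  simp only [h1]
  rw [Finset.sum_comm]
  have h2 : ∀ w : k × E, ∑ η : k × E, ∑ z : k × E, f w * g z * ψ (p3 (w - z) η) =
      (Fintype.card k : ℂ) ^ 3 * (f w * g w) := by
    intro w
    rw [Finset.sum_comm]
    have h3 : ∀ z : k × E, ∑ η : k × E, f w * g z * ψ (p3 (w - z) η) =
        if z = w then (Fintype.card k : ℂ) ^ 3 * (f w * g w) else 0 := by
      intro z
      rw [← Finset.mul_sum, orth_p3 c hψ]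
      by_cases hzw : z = w
      · rw [if_pos hzw, hzw, sub_self, ind_one rfl]
        ring
      · rw [if_neg hzw, ind_zero (fun h => hzw (sub_eq_zero.1 h).symm)]
        ring
    simp only [h3]
    rw [Finset.sum_ite_eq' Finset.univ w]
    simp
  simp only [h2]
  rw [← Finset.mul_sum]

theorem Kl_zero {ψ : AddChar k ℂ} (hψ : ψ ≠ 1) : Kl ψ 0 = -1 := by
  have h := sum_psi_units hψ 1
  simp only [mul_one, one_ne_zero, if_false, zero_sub] at h
  rw [Kl]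
  simp only [zero_mul, add_zero]
  exact h

theorem sum_inv_units (f : kˣ → ℂ) : ∑ m : kˣ, f m⁻¹ = ∑ m : kˣ, f m :=
  Fintype.sum_equiv (Equiv.inv kˣ) _ _ (fun _ => rfl)

/-- The sum over `m` of one Kloosterman sum. -/
theorem sum_Kl (hF3 : GoalF3a) {ψ : AddChar k ℂ} (hψ : ψ ≠ 1) (A : k) :
    ∑ m : kˣ, Kl ψ (- (((m⁻¹ : kˣ) : k) * A)) = 1 - Fintype.card k * ind (A = 0) := by
  have h := hF3 k ψ hψ (-A) 0
  simp only [mul_zero, neg_zero, Kl_zero hψ, add_zero, neg_eq_zero, ind_one, and_true] at h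
  have h2 : ∑ m : kˣ, Kl ψ (- (((m⁻¹ : kˣ) : k) * A)) = ∑ m : kˣ, Kl ψ ((m : k) * -A) := by
    rw [← sum_inv_units (fun m : kˣ => Kl ψ ((m : k) * -A))]
    refine Finset.sum_congr rfl fun m _ => ?_
    rw [mul_neg]
  rw [h2]
  simp only [mul_neg, mul_one, Finset.sum_neg_distrib] at h
  simp only [mul_neg]
  linear_combination -h

/-- The Fourier transform of `TT κ`. -/
theorem FT (hF1 : GoalF1) (hF2 : GoalF2w) (hF3 : GoalF3a) (hJ : GoalJ) (c : Ctx k E)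
    {ψ : AddChar k ℂ} (hψ : ψ ≠ 1) :
    ∃ G : E × E × E → ℂ, ∀ (z κ : E), z * cj k E z = 1 →
      (κ = c.ρ * z ^ 3 ∨ κ = cj k E c.ρ * z ^ 3) → ∀ Y : E × E × E,
      (Fintype.card k : ℂ) ^ 4 * ∑ X : E × E × E, TT c κ X * ψ (3 * ip X Y) +
        (Fintype.card k : ℂ) ^ 7 * TT c κ Y = G Y := by
  obtain ⟨R, hR⟩ := FJ hF2 hJ c hψ
  set q : ℂ := (Fintype.card k : ℂ) with hq
  have hq0 : q ≠ 0 := q_ne
  -- the explicit function `G`
  let G1 : k × E → E × E × E → ℂ := fun η Y =>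
    - q - 1 + q * (ind (η = 0) + ind (c.NJ (-η) Y = 0)) - q ^ 2 * ind (η = 0 ∧ c.NJ (-η) Y = 0)
  let G2 : E × E × E → ℂ := fun Y => ∑ η : k × E,
    (- q ^ 5 * G1 η Y + q * R (-η) Y * (1 - q * ind (η = 0)) +
      q ^ 6 * ind (η = 0) * (1 - q * ind (c.NJ (-η) Y = 0)) -
      q ^ 2 * ind (η = 0) * R (-η) Y * (Fintype.card kˣ : ℂ))
  refine ⟨fun Y => q ^ 3 * ∑ X : E × E × E, ∑ z : k × E, ψ (3 * ip X Y) + G2 Y, ?_⟩
  intro z κ hz hκ Y
  -- first step
  have s1 : q * ∑ X : E × E × E, TT c κ X * ψ (3 * ip X Y) =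
      ∑ X : E × E × E, ∑ z : k × E, ψ (3 * ip X Y) +
      ∑ m : kˣ, ∑ w : k × E, ψ ((m : k) * nk κ w) *
        (∑ X : E × E × E, ψ ((m : k) * c.NJ w X + 3 * ip X Y)) := by
    have e1 : ∀ X : E × E × E, q * (TT c κ X * ψ (3 * ip X Y)) =
        ∑ z : k × E, ψ (3 * ip X Y) + ∑ m : kˣ, ∑ w : k × E, ψ ((m : k) * nk κ w) *
          ψ ((m : k) * c.NJ w X + 3 * ip X Y) := by
      intro X
      have e2 : q * (TT c κ X * ψ (3 * ip X Y)) =
          ∑ w : k × E, (q * ind (c.NJ w X + nk κ w = 0)) * ψ (3 * ip X Y) := by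
        rw [TT, ← mul_assoc, Finset.mul_sum, Finset.sum_mul]
      rw [e2]
      have e3 : ∀ w : k × E, (q * ind (c.NJ w X + nk κ w = 0)) * ψ (3 * ip X Y) =
          ψ (3 * ip X Y) + ∑ m : kˣ, ψ ((m : k) * nk κ w) *
          ψ ((m : k) * c.NJ w X + 3 * ip X Y) := by
        intro w
        rw [hq, sum_k_ind hψ, add_mul, one_mul, Finset.sum_mul]
        congr 1
        refine Finset.sum_congr rfl fun m _ => ?_
        rw [← AddChar.map_add_eq_mul, ← AddChar.map_add_eq_mul]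
        congr 1
        ring
      simp only [e3]
      rw [Finset.sum_add_distrib, Finset.sum_comm (s := (Finset.univ : Finset (k × E)))
        (t := (Finset.univ : Finset kˣ))]
    rw [Finset.mul_sum]
    simp only [e1]
    rw [Finset.sum_add_distrib]
    congr 1
    rw [Finset.sum_comm]
    refine Finset.sum_congr rfl fun m _ => ?_
    rw [Finset.sum_comm]
    refine Finset.sum_congr rfl fun w _ => ?_
    rw [Finset.mul_sum]
  -- Parseval
  have s2 : ∀ m : kˣ, q ^ 3 * ∑ w : k × E, ψ ((m : k) * nk κ w) *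
        (∑ X : E × E × E, ψ ((m : k) * c.NJ w X + 3 * ip X Y)) =
      ∑ η : k × E, (q * Kl ψ (- (((m⁻¹ : kˣ) : k) * nk κ η)) - q ^ 2 * ind (η = 0)) *
        (- q ^ 4 * Kl ψ (- (((m⁻¹ : kˣ) : k) * c.NJ (-η) Y)) + R (-η) Y) := by
    intro m
    rw [hq, ← parseval c hψ]
    refine Finset.sum_congr rfl fun η _ => ?_
    congr 1
    · rw [← F1k c hF1 hψ hz hκ m η]
      refine Finset.sum_congr rfl fun w _ => ?_
      rw [AddChar.map_add_eq_mul]
    · rw [← hR (-η) Y m]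
      refine Eq.trans ?_ (Fintype.sum_prod_type _).symm
      refine Finset.sum_congr rfl fun w _ => ?_
      rw [Finset.sum_mul]
      refine Finset.sum_congr rfl fun X _ => ?_
      rw [← AddChar.map_add_eq_mul]
      congr 1
      ring
  -- sum over `m`
  have s3 : ∀ η : k × E, ∑ m : kˣ, (q * Kl ψ (- (((m⁻¹ : kˣ) : k) * nk κ η)) -
        q ^ 2 * ind (η = 0)) *
        (- q ^ 4 * Kl ψ (- (((m⁻¹ : kˣ) : k) * c.NJ (-η) Y)) + R (-η) Y) =
      - q ^ 7 * ind (c.NJ (-η) Y + nk κ (-η) = 0) +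
      (- q ^ 5 * G1 η Y + q * R (-η) Y * (1 - q * ind (η = 0)) +
      q ^ 6 * ind (η = 0) * (1 - q * ind (c.NJ (-η) Y = 0)) -
      q ^ 2 * ind (η = 0) * R (-η) Y * (Fintype.card kˣ : ℂ)) := by
    intro η
    have t1 := sum_Kl hF3 hψ (nk κ η)
    have t2 := sum_Kl hF3 hψ (c.NJ (-η) Y)
    have t3 := hF3 k ψ hψ (-(nk κ η)) (c.NJ (-η) Y)
    have t4 : ∑ m : kˣ, Kl ψ (- (((m⁻¹ : kˣ) : k) * nk κ η)) *
        Kl ψ (- (((m⁻¹ : kˣ) : k) * c.NJ (-η) Y)) =
        ∑ m : kˣ, Kl ψ ((m : k) * -(nk κ η)) * Kl ψ (-((m : k) * c.NJ (-η) Y)) := by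
      rw [← sum_inv_units (fun m : kˣ => Kl ψ ((m : k) * -(nk κ η)) *
        Kl ψ (-((m : k) * c.NJ (-η) Y)))]
      refine Finset.sum_congr rfl fun m _ => ?_
      rw [mul_neg]
    rw [← t4] at t3
    have e0 : (nk κ η = 0) = (η = 0) := propext (nk_eq_zero c hz hκ η)
    have e0' : (-nk κ η = 0) = (η = 0) := by rw [neg_eq_zero, e0]
    have e1 : -nk κ η + c.NJ (-η) Y = c.NJ (-η) Y + nk κ (-η) := by
      rw [nk_neg c.finE]; ring
    rw [e0', e1] at t3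
    rw [e0] at t1
    have e5 : ∀ m : kˣ, (q * Kl ψ (- (((m⁻¹ : kˣ) : k) * nk κ η)) -
        q ^ 2 * ind (η = 0)) *
        (- q ^ 4 * Kl ψ (- (((m⁻¹ : kˣ) : k) * c.NJ (-η) Y)) + R (-η) Y) =
        - q ^ 5 * (Kl ψ (- (((m⁻¹ : kˣ) : k) * nk κ η)) *
          Kl ψ (- (((m⁻¹ : kˣ) : k) * c.NJ (-η) Y))) +
        q * R (-η) Y * Kl ψ (- (((m⁻¹ : kˣ) : k) * nk κ η)) +
        q ^ 6 * ind (η = 0) * Kl ψ (- (((m⁻¹ : kˣ) : k) * c.NJ (-η) Y)) -
        q ^ 2 * ind (η = 0) * R (-η) Y := by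
      intro m
      ring
    simp only [e5]
    rw [Finset.sum_sub_distrib, Finset.sum_add_distrib, Finset.sum_add_distrib,
      ← Finset.mul_sum, ← Finset.mul_sum, ← Finset.mul_sum, t1, t2, t3, Finset.sum_const,
      Finset.card_univ, nsmul_eq_mul]
    simp only [G1]
    ring
  -- assemble
  have s4 : q ^ 3 * ∑ m : kˣ, ∑ w : k × E, ψ ((m : k) * nk κ w) *
        (∑ X : E × E × E, ψ ((m : k) * c.NJ w X + 3 * ip X Y)) =
      - q ^ 7 * TT c κ Y + G2 Y := by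
    rw [Finset.mul_sum]
    simp only [s2]
    rw [Finset.sum_comm]
    simp only [s3]
    rw [Finset.sum_add_distrib, ← Finset.mul_sum]
    congr 2
    rw [TT]
    exact Fintype.sum_equiv (Equiv.neg (k × E)) _ _ (fun _ => rfl)
  have s5 : q ^ 4 * ∑ X : E × E × E, TT c κ X * ψ (3 * ip X Y) =
      q ^ 3 * (q * ∑ X : E × E × E, TT c κ X * ψ (3 * ip X Y)) := by ring
  rw [s5, s1, mul_add, s4]
  ring

end Pool.Agent.Helper1.Hemi
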