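import Mathlib
import Pool.Agent.Helper1.Hemi.LS2

/-!
# Line sum theorem
-/

set_option autoImplicit false
set_option linter.unusedSectionVars false

open Classical

namespace Pool.Agent.Helper1.Hemi

open Pool.Agent.Helper93.Hemi

variable {k E : Type} [Field k] [Fintype k] [Field E] [Fintype E] [Algebra k E]

/-- `T` in terms of the number `CC`. -/
theorem TT_of_aa_zero (c : Ctx k E) (κ : E) {X : E × E × E} (ha : aa (k := k) X = 0) :
    TT c κ X = Fintype.card k * (c.CC κ X : ℂ) := by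
  have h1 : ∀ z : k × E, c.NJ z X + nk κ z =
      tr k E ((c.ρ + κ) * z.2 ^ 3 - 3 * (cj k E (c.YY X) * z.2)) + tr k E (c.nu X) := by
    intro z
    have e1 : tr k E (3 * (cj k E (c.YY X) * z.2)) = 3 * tr k E (z.2 * cj k E (c.YY X)) := by
      have : (3 : E) * (cj k E (c.YY X) * z.2) = algebraMap k E 3 * (z.2 * cj k E (c.YY X)) := by
        rw [map_ofNat]; ring
      rw [this, tr_algebraMap_mul]
    simp only [Ctx.NJ, Ctx.n, nk, ha, mul_zero, zero_add, add_mul, map_sub, map_add, e1]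
    ring
  simp only [TT, h1]
  rw [Fintype.sum_prod_type]
  simp only [Finset.sum_const, Finset.card_univ, nsmul_eq_mul]
  congr 1
  rw [Ctx.CC, Finset.card_filter]
  push_cast
  refine Finset.sum_congr rfl fun V _ => ?_
  rw [ind]

theorem TT_of_aa_ne (c : Ctx k E) (κ : E) {X : E × E × E} (ha : aa (k := k) X ≠ 0) :
    TT c κ X = (Fintype.card k : ℂ) ^ 2 := by
  have h1 : ∀ z : k × E, c.NJ z X + nk κ z = - (3 * aa X) * z.1 +
      (tr k E (c.ρ * z.2 ^ 3) + tr k E (κ * z.2 ^ 3) - 3 * tr k E (z.2 * cj k E (c.YY X)) +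
        tr k E (c.nu X)) := by
    intro z
    simp only [Ctx.NJ, Ctx.n, nk]
    ring
  simp only [TT, h1]
  rw [Fintype.sum_prod_type_right]
  have h3 : -(3 * aa (k := k) X) ≠ 0 := neg_ne_zero.2 (mul_ne_zero c.three_ne ha)
  have h2 : ∀ t : k, ∑ a : k, ind (-(3 * aa (k := k) X) * a + t = 0) = 1 := by
    intro t
    rw [Finset.sum_eq_single (t / (3 * aa (k := k) X))]
    · apply ind_one
      have h4 : (3 * aa (k := k) X) ≠ 0 := mul_ne_zero c.three_ne ha
      have h5 : (3 * aa (k := k) X) * (t / (3 * aa (k := k) X)) = t := by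
        rw [← mul_div_assoc]
        exact mul_div_cancel_left₀ t h4
      linear_combination -h5
    · intro b _ hb
      apply ind_zero
      intro h
      apply hb
      have : (3 * aa (k := k) X) ≠ 0 := mul_ne_zero c.three_ne ha
      rw [eq_div_iff this]
      linear_combination -h
    · intro h
      exact absurd (Finset.mem_univ _) h
  simp only [h2, Finset.sum_const, Finset.card_univ, nsmul_eq_mul, mul_one]
  rw [card_E c.finE]

/-- The trivial case `κ = -ρ`. -/
theorem TT_neg (hψ' : ∃ ψ : AddChar k ℂ, ψ ≠ 1) (c : Ctx k E) (X : E × E × E) :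
    TT c (-c.ρ) X = if X = 0 then (Fintype.card k : ℂ) ^ 3 else (Fintype.card k : ℂ) ^ 2 := by
  split_ifs with hX
  · subst hX
    have h1 : ∀ z : k × E, c.NJ z (0 : E × E × E) + nk (-c.ρ) z = 0 := by
      intro z
      have h2 : c.YY (0 : E × E × E) = 0 := by simp [Ctx.YY]
      have h3 : c.nu (0 : E × E × E) = 0 := by simp [Ctx.nu]
      simp only [Ctx.NJ, Ctx.n, nk, aa_zero c.finE, h2, h3, map_zero, mul_zero, neg_mul, map_neg]
      ring
    simp only [TT, h1, ind_one, Finset.sum_const, Finset.card_univ, nsmul_eq_mul, mul_one,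
      Fintype.card_prod]
    push_cast
    rw [card_E c.finE]
    ring
  · by_cases ha : aa (k := k) X = 0
    · have hY : c.YY X ≠ 0 := fun h => hX (eq_zero_of_aa_YY c ha h)
      obtain ⟨ψ, hψ⟩ := hψ'
      have hq0 : (Fintype.card k : ℂ) ≠ 0 := q_ne
      have h1 : ∀ z : k × E, c.NJ z X + nk (-c.ρ) z =
          - (3 * tr k E (z.2 * cj k E (c.YY X))) + tr k E (c.nu X) := by
        intro z
        simp only [Ctx.NJ, Ctx.n, nk, ha, neg_mul, map_neg]
        ring
      apply mul_left_cancel₀ hq0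
      simp only [TT, h1]
      rw [Finset.mul_sum]
      simp only [sum_k_ind hψ]
      rw [Finset.sum_add_distrib, Finset.sum_comm]
      have h2 : ∀ m : kˣ, ∑ z : k × E, ψ ((m : k) * (-(3 * tr k E (z.2 * cj k E (c.YY X))) +
          tr k E (c.nu X))) = 0 := by
        intro m
        have h3 : ∀ z : k × E, ψ ((m : k) * (-(3 * tr k E (z.2 * cj k E (c.YY X))) +
            tr k E (c.nu X))) = ψ (tr k E (z.2 * (algebraMap k E (-3 * m) * cj k E (c.YY X)))) *
            ψ (m * tr k E (c.nu X)) := by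
          intro z
          rw [← AddChar.map_add_eq_mul]
          congr 1
          rw [mul_left_comm z.2, tr_algebraMap_mul]
          ring
        simp only [h3]
        rw [← Finset.sum_mul, Fintype.sum_prod_type]
        simp only [sum_psi_tr c.finE hψ]
        rw [if_neg]
        · simp
        · apply mul_ne_zero
          · intro h
            rw [map_eq_zero] at h
            rcases mul_eq_zero.1 h with h4 | h4
            · exact c.three_ne (neg_eq_zero.1 h4)
            · exact m.ne_zero h4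
          · exact fun h => hY (cj_eq_zero.1 h)
      simp only [h2, Finset.sum_const_zero, add_zero, Finset.sum_const, Finset.card_univ,
        nsmul_eq_mul, mul_one, Fintype.card_prod]
      push_cast
      rw [card_E c.finE]
    · exact TT_of_aa_ne c _ ha

/-- Orthogonality on `E^3`. -/
theorem orth_ip (c : Ctx k E) {ψ : AddChar k ℂ} (hψ : ψ ≠ 1) (X : E × E × E) :
    ∑ Y : E × E × E, ψ (3 * ip X Y) = (Fintype.card k : ℂ) ^ 6 * ind (X = 0) := by
  have h1 : ∀ Y : E × E × E, ψ (3 * ip X Y) = ψ (tr k E (cj k E Y.1 * (3 * X.1))) *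
      (ψ (tr k E (cj k E Y.2.1 * (3 * X.2.1))) * ψ (tr k E (cj k E Y.2.2 * (3 * X.2.2)))) := by
    intro Y
    rw [← AddChar.map_add_eq_mul, ← AddChar.map_add_eq_mul]
    congr 1
    have : ∀ x y : E, tr k E (cj k E y * (3 * x)) = 3 * tr k E (x * cj k E y) := by
      intro x y
      rw [← tr_algebraMap_mul, map_ofNat]
      congr 1
      ring
    rw [this, this, this, ip]
    ring
  simp only [h1]
  have h2 : ∀ x : E, ∑ y : E, ψ (tr k E (cj k E y * (3 * x))) =
      (Fintype.card k : ℂ) ^ 2 * ind (x = 0) := by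
    intro x
    have h3 : ∑ y : E, ψ (tr k E (cj k E y * (3 * x))) = ∑ y : E, ψ (tr k E (y * (3 * x))) := by
      refine Fintype.sum_bijective (cj k E) ?_ _ _ (fun _ => rfl)
      exact Finite.injective_iff_bijective.1 cj_injective
    rw [h3, sum_psi_tr c.finE hψ]
    simp only [mul_eq_zero, c.three_ne_E, false_or, ind]
    split_ifs <;> ring
  rw [Fintype.sum_prod_type]
  simp only [Fintype.sum_prod_type, ← Finset.mul_sum, ← Finset.sum_mul, h2]
  obtain ⟨x0, x1, x2⟩ := X
  simp only [Prod.mk_eq_zero]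
  by_cases h0 : x0 = 0 <;> by_cases h1 : x1 = 0 <;> by_cases h2 : x2 = 0 <;>
    simp [ind, h0, h1, h2]
  ring

/-- Gauss sum of `m aa` on `E^3`. -/
theorem gauss_aa (c : Ctx k E) {ψ : AddChar k ℂ} (hψ : ψ ≠ 1) (X : E × E × E) (m : kˣ) :
    ∑ Y : E × E × E, ψ ((m : k) * aa Y + 3 * ip X Y) =
      - (Fintype.card k : ℂ) ^ 3 * ψ (- (9 * aa X / m)) := by
  have hr := c.finE
  have h1 : ∀ Y : E × E × E, ψ ((m : k) * aa Y + 3 * ip X Y) =
      ψ ((m : k) * Algebra.norm k Y.1 + Algebra.trace k E ((3 * cj k E X.1) * Y.1)) *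
      (ψ ((m : k) * Algebra.norm k Y.2.1 + Algebra.trace k E ((3 * cj k E X.2.1) * Y.2.1)) *
      ψ ((m : k) * Algebra.norm k Y.2.2 + Algebra.trace k E ((3 * cj k E X.2.2) * Y.2.2))) := by
    intro Y
    rw [← AddChar.map_add_eq_mul, ← AddChar.map_add_eq_mul]
    congr 1
    have : ∀ x y : E, Algebra.trace k E ((3 * cj k E x) * y) = 3 * tr k E (x * cj k E y) := by
      intro x y
      change tr k E ((3 * cj k E x) * y) = _
      rw [← tr_algebraMap_mul, map_ofNat, ← tr_cj hr (3 * (x * cj k E y))]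
      congr 1
      simp only [map_mul, map_ofNat, cj_cj hr]
      ring
    rw [this, this, this, ip, aa, nm]
    ring
  simp only [h1]
  rw [Fintype.sum_prod_type]
  simp only [Fintype.sum_prod_type, ← Finset.mul_sum, ← Finset.sum_mul,
    Pool.Agent.Helper50.Hemi.sum_quad hr ψ hψ (m : k) m.ne_zero]
  have h9 : ∀ x : E, Algebra.norm k (3 * cj k E x) = 9 * nm k E x := by
    intro x
    have h := nm_algebraMap_mul hr (3 : k) (cj k E x)
    have h33 : (3 : k) ^ 2 = 9 := by norm_num
    rw [map_ofNat, nm_cj hr, h33] at h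
    exact h
  rw [h9, h9, h9]
  have e : ψ (- (9 * aa X / m)) = ψ (-(9 * nm k E X.1 / m)) * (ψ (-(9 * nm k E X.2.1 / m)) *
      ψ (-(9 * nm k E X.2.2 / m))) := by
    rw [← AddChar.map_add_eq_mul, ← AddChar.map_add_eq_mul, aa]
    congr 1
    ring
  rw [e]
  ring

section line

variable (c : Ctx k E) (L : Finset (E × E × E)) (h0 : (0 : E × E × E) ∈ L)
  (hadd : ∀ x ∈ L, ∀ y ∈ L, x + y ∈ L) (hsmul : ∀ (a : k), ∀ x ∈ L, a • x ∈ L)
  (hcard : L.card = Fintype.card k ^ 2) (haa : ∀ x ∈ L, aa (k := k) x = 0)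

/-- The orthogonal complement. -/
noncomputable def perp (k : Type) {E : Type} [Field k] [Fintype k] [Field E] [Fintype E]
    [Algebra k E] (L : Finset (E × E × E)) : Finset (E × E × E) :=
  Finset.univ.filter (fun Y => ∀ X ∈ L, ip (k := k) Y X = 0)

include c hadd hsmul hcard in
theorem sum_L {ψ : AddChar k ℂ} (hψ : ψ ≠ 1) (Y : E × E × E) :
    ∑ X ∈ L, ψ (3 * ip Y X) = (Fintype.card k : ℂ) ^ 2 * ind (Y ∈ perp k L) := by
  have h := sum_subspace (k := k) ψ hψ L hadd hsmul (ipL (k := k) Y)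
  have e : ∀ X, ipL (k := k) Y X = 3 * ip Y X := fun X => rfl
  simp only [e] at h
  rw [h, hcard]
  simp only [mul_eq_zero, c.three_ne, false_or, perp, Finset.mem_filter, Finset.mem_univ, true_and,
    ind]
  split_ifs <;> simp

include c h0 hadd hsmul hcard haa in
theorem perp_singular (hψ' : ∃ ψ : AddChar k ℂ, ψ ≠ 1) :
    (perp k L).filter (fun Y => aa (k := k) Y = 0) = L := by
  obtain ⟨ψ, hψ⟩ := hψ'
  have hr := c.finE
  have hsub : L ⊆ (perp k L).filter (fun Y => aa (k := k) Y = 0) := by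
    intro Y hY
    rw [Finset.mem_filter, perp, Finset.mem_filter]
    refine ⟨⟨Finset.mem_univ _, ?_⟩, haa Y hY⟩
    intro X hX
    have h := aa_add hr Y X
    rw [haa _ (hadd Y hY X hX), haa Y hY, haa X hX] at h
    linear_combination -h
  refine (Finset.eq_of_subset_of_card_le hsub (le_of_eq ?_)).symm
  rw [hcard]
  set q : ℂ := (Fintype.card k : ℂ) with hq
  have hq0 : q ≠ 0 := q_ne
  have h1 : q ^ 3 * (((perp k L).filter (fun Y => aa (k := k) Y = 0)).card : ℂ) = q ^ 5 := by
    have e1 : (((perp k L).filter (fun Y => aa (k := k) Y = 0)).card : ℂ) =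
        ∑ Y : E × E × E, ind (Y ∈ perp k L) * ind (aa (k := k) Y = 0) := by
      rw [Finset.card_filter]
      push_cast
      rw [← Finset.sum_filter_add_sum_filter_not (Finset.univ : Finset (E × E × E))
        (fun Y => Y ∈ perp k L)]
      have e2 : ∑ x ∈ Finset.univ.filter (fun x => ¬ x ∈ perp k L),
          ind (x ∈ perp k L) * ind (aa (k := k) x = 0) = 0 := by
        apply Finset.sum_eq_zero
        intro x hx
        rw [ind_zero (Finset.mem_filter.1 hx).2, zero_mul]
      rw [e2, add_zero]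
      have e3 : Finset.univ.filter (fun Y => Y ∈ perp k L) = perp k L := by
        ext Y
        simp
      rw [e3]
      refine Finset.sum_congr rfl fun Y hY => ?_
      rw [ind_one hY, one_mul, ind]
    rw [e1, Finset.mul_sum]
    have e2 : ∀ Y : E × E × E, q ^ 3 * (ind (Y ∈ perp k L) * ind (aa (k := k) Y = 0)) =
        ∑ X ∈ L, (ψ (3 * ip X Y) + ∑ m : kˣ, ψ ((m : k) * aa Y + 3 * ip X Y)) := by
      intro Y
      have e3 : q ^ 3 * (ind (Y ∈ perp k L) * ind (aa (k := k) Y = 0)) =
          (q ^ 2 * ind (Y ∈ perp k L)) * (q * ind (aa (k := k) Y = 0)) := by ring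
      rw [e3, hq, ← sum_L c L hadd hsmul hcard hψ, sum_k_ind hψ, Finset.sum_mul]
      refine Finset.sum_congr rfl fun X _ => ?_
      rw [ip_comm hr Y X, mul_add, mul_one, Finset.mul_sum]
      congr 1
      refine Finset.sum_congr rfl fun m _ => ?_
      rw [← AddChar.map_add_eq_mul, add_comm]
    simp only [e2]
    rw [Finset.sum_comm]
    have e4 : ∀ X ∈ L, ∑ Y : E × E × E, (ψ (3 * ip X Y) +
        ∑ m : kˣ, ψ ((m : k) * aa Y + 3 * ip X Y)) =
        q ^ 6 * ind (X = 0) - (Fintype.card kˣ : ℂ) * q ^ 3 := by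
      intro X hX
      rw [Finset.sum_add_distrib, orth_ip c hψ, Finset.sum_comm]
      simp only [gauss_aa c hψ, haa X hX, mul_zero, zero_div, neg_zero, AddChar.map_zero_eq_one,
        mul_one, Finset.sum_const, Finset.card_univ, nsmul_eq_mul]
      ring
    rw [Finset.sum_congr rfl e4, Finset.sum_sub_distrib, ← Finset.mul_sum, Finset.sum_const, hcard,
      nsmul_eq_mul]
    have e5 : ∑ X ∈ L, ind (X = 0) = 1 := by
      rw [Finset.sum_eq_single (0 : E × E × E)]
      · exact ind_one rfl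
      · intro b _ hb
        exact ind_zero hb
      · intro h
        exact absurd h0 h
    have e6 : (Fintype.card kˣ : ℂ) = q - 1 := by
      rw [Fintype.card_units, Nat.cast_sub Fintype.card_pos, Nat.cast_one]
    rw [e5, e6]
    push_cast
    ring
  have h2 : (((perp k L).filter (fun Y => aa (k := k) Y = 0)).card : ℂ) = q ^ 2 := by
    apply mul_left_cancel₀ (pow_ne_zero 3 hq0)
    rw [h1]
    ring
  rw [hq] at h2
  exact_mod_cast h2

include c h0 hadd hsmul hcard haa in
/-- Poisson summation. -/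
theorem poisson (hψ' : ∃ ψ : AddChar k ℂ, ψ ≠ 1) {ψ : AddChar k ℂ} (hψ : ψ ≠ 1)
    (D : E × E × E → ℂ)
    (hD : ∀ Y, ∑ X : E × E × E, D X * ψ (3 * ip X Y) = - (Fintype.card k : ℂ) ^ 3 * D Y)
    (hD0 : ∀ Y, aa (k := k) Y ≠ 0 → D Y = 0) : ∑ X ∈ L, D X = 0 := by
  set q : ℂ := (Fintype.card k : ℂ) with hq
  have hq0 : q ≠ 0 := q_ne
  have h1 : - q ^ 3 * ∑ Y ∈ L, D Y = q ^ 2 * ∑ Y ∈ L, D Y := by
    rw [Finset.mul_sum]
    simp only [← hD]
    rw [Finset.sum_comm]
    simp only [← Finset.mul_sum, sum_L c L hadd hsmul hcard hψ]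
    rw [← hq]
    have e1 : ∀ X : E × E × E, D X * (q ^ 2 * ind (X ∈ perp k L)) =
        if X ∈ L then q ^ 2 * D X else 0 := by
      intro X
      have hL := perp_singular c L h0 hadd hsmul hcard haa hψ'
      by_cases hX : X ∈ perp k L
      · rw [ind_one hX]
        by_cases ha : aa (k := k) X = 0
        · have : X ∈ L := by
            rw [← hL, Finset.mem_filter]
            exact ⟨hX, ha⟩
          rw [if_pos this]
          ring
        · rw [hD0 X ha]
          simp
      · have : X ∉ L := by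
          intro h
          rw [← hL, Finset.mem_filter] at h
          exact hX h.1
        rw [if_neg this, ind_zero hX]
        ring
    simp only [e1]
    rw [← Finset.sum_filter, Finset.mul_sum]
    congr 1
    ext X
    simp
  have h2 : (q ^ 2 * (q + 1)) * ∑ X ∈ L, D X = 0 := by linear_combination -h1
  rcases mul_eq_zero.1 h2 with h3 | h3
  · exfalso
    rcases mul_eq_zero.1 h3 with h4 | h4
    · exact pow_ne_zero 2 hq0 h4
    · have : ((Fintype.card k + 1 : ℕ) : ℂ) = 0 := by
        push_cast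
        exact h4
      exact absurd (by exact_mod_cast this : Fintype.card k + 1 = 0) (by omega)
  · exact h3

end line

/-- The line sum theorem. -/
theorem goalLS (hF1 : GoalF1) (hF2 : GoalF2w) (hF3 : GoalF3a) (hJ : GoalJ) : GoalLS := by
  intro k E _ _ _ _ _ c z κ hz hκ L h0 hadd hsmul hcard haa
  have hψ' : ∃ ψ : AddChar k ℂ, ψ ≠ 1 := by
    obtain ⟨ψ, hψ⟩ := (AddChar.exists_apply_ne_zero (α := k) (a := (1 : k))).2 one_ne_zero
    exact ⟨ψ, fun h => hψ (by rw [h, AddChar.one_apply])⟩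
  obtain ⟨ψ, hψ⟩ := hψ'
  obtain ⟨G, hG⟩ := FT hF1 hF2 hF3 hJ c hψ
  set q : ℂ := (Fintype.card k : ℂ) with hq
  have hq0 : q ≠ 0 := q_ne
  have hm1 : (-1 : E) * cj k E (-1) = 1 := by
    rw [map_neg, map_one]
    ring
  have g1 := hG z κ hz hκ
  have g2 := hG (-1) (-c.ρ) hm1 (Or.inl (by ring))
  have hD := poisson c L h0 hadd hsmul hcard haa ⟨ψ, hψ⟩ hψ (fun X => TT c κ X - TT c (-c.ρ) X)
    (by
      intro Y
      have e1 := g1 Y
      have e2 := g2 Y
      simp only [sub_mul]
      rw [Finset.sum_sub_distrib]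
      apply mul_left_cancel₀ (pow_ne_zero 4 hq0)
      linear_combination e1 - e2)
    (by
      intro Y hY
      simp only [TT_of_aa_ne c _ hY, sub_self])
  rw [Finset.sum_sub_distrib, sub_eq_zero] at hD
  have h1 : ∑ X ∈ L, TT c κ X = q * ∑ X ∈ L, (c.CC κ X : ℂ) := by
    rw [Finset.mul_sum]
    exact Finset.sum_congr rfl fun X hX => TT_of_aa_zero c κ (haa X hX)
  have h2 : ∑ X ∈ L, TT c (-c.ρ) X = q ^ 3 + (q ^ 2 - 1) * q ^ 2 := by
    rw [← Finset.add_sum_erase L _ h0, TT_neg ⟨ψ, hψ⟩, if_pos rfl]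
    congr 1
    rw [Finset.sum_congr rfl (fun X hX => by
      rw [TT_neg ⟨ψ, hψ⟩, if_neg (Finset.ne_of_mem_erase hX)]), Finset.sum_const,
      Finset.card_erase_of_mem h0, hcard, nsmul_eq_mul, Nat.cast_sub (Nat.one_le_pow _ _
        Fintype.card_pos)]
    push_cast
    ring
  rw [h1, h2] at hD
  have h3 : ∑ X ∈ L, (c.CC κ X : ℂ) = q ^ 3 + q ^ 2 - q := by
    apply mul_left_cancel₀ hq0
    rw [hD]
    ring
  have h4 : ((∑ X ∈ L, (c.CC κ X : ℤ) : ℤ) : ℂ) =
      (((Fintype.card k : ℤ) ^ 3 + (Fintype.card k : ℤ) ^ 2 - Fintype.card k : ℤ) : ℂ) := by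
    push_cast
    exact h3
  exact_mod_cast h4

end Pool.Agent.Helper1.Hemi
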